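import Pool.Agent.H34.CH.Main

/-!
# The minimal invariant subspace, and bilinear forms with one negative direction
-/

set_option autoImplicit false

open Set Filter Topology

namespace Pool.Agent.H34.CH

open Pool.Agent.W689.Ch Pool.Agent.TH845.Mk Pool.Agent.Y150.Ch
open Pool.Agent.W689.Mk (lin hol_add hol_sub hol_inv_apply hol_apply_inv lin_inv_apply lin_mul
  lin_smul hol_cont)

section
variable {X Γ E : Type} [TopologicalSpace X] [T2Space X] [Group Γ] [MulAction Γ X]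
  [NormedAddCommGroup E] [NormedSpace ℝ E] [FiniteDimensional ℝ E]
  {dev : X → E} {hol : Γ →* (E ≃ᵃ[ℝ] E)} {G : Subgroup Γ} {H : AffineSubspace ℝ E} {x₀ : X}

theorem no_family (D : AffMfd X Γ E dev hol) (m : Min dev hol G H x₀) {K : Subgroup Γ} (hKG : K ≤ G)
    (hK : K.FiniteIndex) {𝒬 : Set (H.direction → ℝ)} (h : Fam 𝒬)
    (hinv : ∀ γ ∈ K, ∀ A : H.direction → H.direction, (∀ v, (A v : E) = lin hol γ v) →
      ∀ F ∈ 𝒬, ∃ F' ∈ 𝒬, ∃ c : ℝ, 0 < c ∧ ∀ v, F (A v) = c * F' v) : False := by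
  have hinvH : ∀ (γ : K), ∀ q ∈ H, (hol.comp K.subtype) γ q ∈ H :=
    fun γ q hq => m.inv γ.1 (hKG γ.2) q hq
  letI act1 := subAct (restr D K hK) hinvH
  have D1 := subMfd (restr D K hK) m.mem hinvH
  obtain ⟨K₁, -, hK₁, -, Z, hZ1, hZ2, hZ3⟩ := field_of_family D1 ⊤ inferInstance h
    (fun γ _ F hF => hinv γ.1 γ.2 (lin (subHol m.mem hinvH) γ) (fun v => rfl) F hF)
  have hle : K₁.map K.subtype ≤ K := Subgroup.map_subtype_le _
  have hfin : (K₁.map K.subtype).FiniteIndex := by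
    refine ⟨?_⟩
    rw [Subgroup.index_map_subtype]
    exact mul_ne_zero hK₁.index_ne_zero hK.index_ne_zero
  have hinvH' : ∀ (γ : K₁.map K.subtype), ∀ q ∈ H,
      (hol.comp (K₁.map K.subtype).subtype) γ q ∈ H :=
    fun γ q hq => m.inv γ.1 (hKG (hle γ.2)) q hq
  refine m.fld _ (hle.trans hKG) hfin (fld_of_sub (restr D _ hfin) m.mem hinvH' ?_)
  refine ⟨Z, hZ1, ?_, hZ3⟩
  rintro ⟨γ, hγ⟩ x
  obtain ⟨δ, hδ, rfl⟩ := Subgroup.mem_map.1 hγ
  exact hZ2 δ hδ x

end

/-! ## Forms with one negative direction -/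

section
variable {V : Type} [NormedAddCommGroup V] [NormedSpace ℝ V] [FiniteDimensional ℝ V]

/-- symmetric, negative on a vector and nonnegative on its orthogonal complement -/
def IndexOne (B : V →ₗ[ℝ] V →ₗ[ℝ] ℝ) : Prop :=
  (∀ x y, B x y = B y x) ∧ ∃ v, B v v < 0 ∧ ∀ w, B v w = 0 → 0 ≤ B w w

theorem form_cont (B : V →ₗ[ℝ] V →ₗ[ℝ] ℝ) : Continuous fun v => B v v := by
  let T : V →ₗ[ℝ] (V →L[ℝ] ℝ) :=
    (LinearMap.toContinuousLinearMap : (V →ₗ[ℝ] ℝ) ≃ₗ[ℝ] (V →L[ℝ] ℝ)).toLinearMap ∘ₗ B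
  have hT : Continuous T := LinearMap.continuous_of_finiteDimensional T
  have h : (fun v => B v v) = fun v => T v v := rfl
  rw [h]
  exact hT.clm_apply continuous_id

theorem form_dc {B : V →ₗ[ℝ] V →ₗ[ℝ] ℝ} (h : IndexOne B) : ∃ C, DC (fun v => B v v) C := by
  obtain ⟨hs, v, hv, hw⟩ := h
  refine ⟨{w | B w w < 0 ∧ B v w < 0}, ?_, ?_, ⟨v, hv, hv⟩, ?_, ?_⟩
  · exact (isOpen_lt (form_cont B) continuous_const).inter
      (isOpen_lt (LinearMap.continuous_of_finiteDimensional (B v)) continuous_const)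
  · rintro x ⟨hx1, hx2⟩ y ⟨hy1, hy2⟩ s t hs0 ht0 hst
    have hu := hw (B v y • x - B v x • y) (by
      rw [map_sub, map_smul, map_smul, smul_eq_mul, smul_eq_mul]
      ring)
    have e1 : B (B v y • x - B v x • y) (B v y • x - B v x • y) =
        (B v y) ^ 2 * B x x - 2 * (B v x * B v y) * B x y + (B v x) ^ 2 * B y y := by
      simp only [map_sub, map_smul, LinearMap.sub_apply, LinearMap.smul_apply, smul_eq_mul]
      rw [hs y x]
      ring
    rw [e1] at hu
    have hp : 0 < B v x * B v y := mul_pos_of_neg_of_neg hx2 hy2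
    have n1 := hy2.ne
    have n2 := hx2.ne
    have h1 : (B v y) ^ 2 * B x x < 0 := mul_neg_of_pos_of_neg (by positivity) hx1
    have h2 : (B v x) ^ 2 * B y y < 0 := mul_neg_of_pos_of_neg (by positivity) hy1
    have h3 : B x y < 0 := by
      by_contra hc
      have := mul_nonneg hp.le (not_lt.1 hc)
      nlinarith
    have e2 : B (s • x + t • y) (s • x + t • y) =
        s ^ 2 * B x x + 2 * (s * t) * B x y + t ^ 2 * B y y := by
      simp only [map_add, map_smul, LinearMap.add_apply, LinearMap.smul_apply, smul_eq_mul]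
      rw [hs y x]
      ring
    have e3 : B v (s • x + t • y) = s * B v x + t * B v y := by
      rw [map_add, map_smul, map_smul, smul_eq_mul, smul_eq_mul]
    refine ⟨?_, ?_⟩
    · show B (s • x + t • y) (s • x + t • y) < 0
      rw [e2]
      rcases eq_or_lt_of_le hs0 with h4 | h4
      · have ht1 : t = 1 := by linarith
        rw [← h4, ht1]
        linarith
      · have h5 : s ^ 2 * B x x < 0 := mul_neg_of_pos_of_neg (by positivity) hx1
        have h6 : 2 * (s * t) * B x y ≤ 0 :=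
          mul_nonpos_of_nonneg_of_nonpos (by positivity) h3.le
        have h7 : t ^ 2 * B y y ≤ 0 := mul_nonpos_of_nonneg_of_nonpos (by positivity) hy1.le
        linarith
    · show B v (s • x + t • y) < 0
      rw [e3]
      rcases eq_or_lt_of_le hs0 with h4 | h4
      · have ht1 : t = 1 := by linarith
        rw [← h4, ht1]
        linarith
      · have h5 : s * B v x < 0 := mul_neg_of_pos_of_neg h4 hx2
        have h6 : t * B v y ≤ 0 := mul_nonpos_of_nonneg_of_nonpos ht0 hy2.le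
        linarith
  · intro w
    have e : B (-w) (-w) = B w w := by simp
    have e' : B v (-w) = - B v w := map_neg _ _
    constructor
    · intro h1
      have h2 : B v w ≠ 0 := fun h3 => not_lt.2 (hw w h3) h1
      rcases lt_or_gt_of_ne h2 with h3 | h3
      · exact Or.inl ⟨h1, h3⟩
      · refine Or.inr ⟨?_, ?_⟩
        · rw [e]; exact h1
        · rw [e']; linarith
    · rintro (⟨h1, -⟩ | ⟨h1, -⟩)
      · exact h1
      · rwa [e] at h1
  · rintro w ⟨-, h1⟩ ⟨-, h2⟩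
    rw [map_neg] at h2
    linarith

theorem form_fam {ℬ : Set (V →ₗ[ℝ] V →ₗ[ℝ] ℝ)} (hne : ℬ.Nonempty) (hc : Convex ℝ ℬ)
    (hi : ∀ B ∈ ℬ, IndexOne B) :
    Fam ((fun (B : V →ₗ[ℝ] V →ₗ[ℝ] ℝ) (v : V) => B v v) '' ℬ) := by
  refine ⟨hne.image _, ?_, ?_, ?_⟩
  · rintro _ ⟨B, hB, rfl⟩ _ ⟨B', hB', rfl⟩ s t hs ht hst
    exact ⟨s • B + t • B', hc hB hB' hs ht hst, rfl⟩
  · rintro _ ⟨B, hB, rfl⟩
    exact form_cont B
  · rintro _ ⟨B, hB, rfl⟩
    exact form_dc (hi B hB)

end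

end Pool.Agent.H34.CH
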