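import Mathlib

/-!
# Convex families of functions which are negative on a double cone

A function `F` has a double cone if `{F < 0}` is the union of an open convex set `C` and of `-C`,
which are disjoint. For a convex set of such functions the halves of the double cones can be chosen
coherently.
-/

set_option autoImplicit false

open Set Filter Topology

namespace Pool.Agent.H34.CH

variable {V : Type*} [NormedAddCommGroup V] [NormedSpace ℝ V]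

/-- `{F < 0}` is the disjoint union of `C` and `-C`, with `C` open, convex and nonempty -/
structure DC (F : V → ℝ) (C : Set V) : Prop where
  op : IsOpen C
  conv : Convex ℝ C
  ne : C.Nonempty
  iff : ∀ v, F v < 0 ↔ v ∈ C ∨ -v ∈ C
  dis : ∀ v ∈ C, -v ∉ C

/-- `F` is negative on the segment from `v` to `w` -/
def Sg (F : V → ℝ) (v w : V) : Prop := ∀ s ∈ Icc (0 : ℝ) 1, F ((1 - s) • v + s • w) < 0

theorem Sg.left {F : V → ℝ} {v w : V} (h : Sg F v w) : F v < 0 := by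
  have := h 0 ⟨le_rfl, zero_le_one⟩
  simpa using this

theorem Sg.right {F : V → ℝ} {v w : V} (h : Sg F v w) : F w < 0 := by
  have := h 1 ⟨zero_le_one, le_rfl⟩
  simpa using this

theorem sg_iff {F : V → ℝ} {C : Set V} (h : DC F C) {v w : V} :
    Sg F v w ↔ (v ∈ C ∧ w ∈ C) ∨ (-v ∈ C ∧ -w ∈ C) := by
  constructor
  · intro hs
    have hg : Continuous fun s : ℝ => (1 - s) • v + s • w := by fun_prop
    have hA : IsOpen ((fun s : ℝ => (1 - s) • v + s • w) ⁻¹' C) := h.op.preimage hg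
    have hB : IsOpen ((fun s : ℝ => -((1 - s) • v + s • w)) ⁻¹' C) := h.op.preimage hg.neg
    have key := isPreconnected_Icc (a := (0 : ℝ)) (b := 1) _ _ hA hB (fun s hs' =>
      (h.iff _).1 (hs s hs'))
    have h0 : (0 : ℝ) ∈ Icc (0 : ℝ) 1 := ⟨le_rfl, zero_le_one⟩
    have h1 : (1 : ℝ) ∈ Icc (0 : ℝ) 1 := ⟨zero_le_one, le_rfl⟩
    rcases (h.iff _).1 hs.left with a | a
    · rcases (h.iff _).1 hs.right with b | b
      · exact Or.inl ⟨a, b⟩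
      · exfalso
        obtain ⟨s, -, h2, h3⟩ := key ⟨0, h0, by simpa using a⟩ ⟨1, h1, by simpa using b⟩
        exact h.dis _ h2 h3
    · rcases (h.iff _).1 hs.right with b | b
      · exfalso
        obtain ⟨s, -, h2, h3⟩ := key ⟨1, h1, by simpa using b⟩ ⟨0, h0, by simpa using a⟩
        exact h.dis _ h2 h3
      · exact Or.inr ⟨a, b⟩
  · rintro (⟨a, b⟩ | ⟨a, b⟩) s ⟨hs0, hs1⟩
    · exact (h.iff _).2 (Or.inl (h.conv a b (by linarith) hs0 (by ring)))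
    · refine (h.iff _).2 (Or.inr ?_)
      have := h.conv a b (a := 1 - s) (b := s) (by linarith) hs0 (by ring)
      rwa [smul_neg, smul_neg, ← neg_add] at this

theorem sg_side {F : V → ℝ} {C : Set V} (h : DC F C) {v w : V} (hv : F v < 0) (hw : F w < 0) :
    Sg F v w ↔ (v ∈ C ↔ w ∈ C) := by
  have a : -v ∈ C ↔ v ∉ C :=
    ⟨fun h1 h2 => h.dis v h2 h1, fun h1 => ((h.iff v).1 hv).resolve_left h1⟩
  have b : -w ∈ C ↔ w ∉ C :=
    ⟨fun h1 h2 => h.dis w h2 h1, fun h1 => ((h.iff w).1 hw).resolve_left h1⟩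
  rw [sg_iff h, a, b]
  tauto

theorem neg_lt {F : V → ℝ} {C : Set V} (h : DC F C) {v : V} (hv : F v < 0) : F (-v) < 0 := by
  rw [h.iff] at hv ⊢
  rw [neg_neg]
  exact hv.symm

theorem dich {F : V → ℝ} {C : Set V} (h : DC F C) {v w : V} (hv : F v < 0) (hw : F w < 0) :
    Sg F v w ∨ Sg F v (-w) := by
  rw [sg_iff h, sg_iff h, neg_neg]
  rw [h.iff] at hv hw
  tauto

theorem excl {F : V → ℝ} {C : Set V} (h : DC F C) {v w : V} (h1 : Sg F v w) : ¬ Sg F v (-w) := by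
  rw [sg_iff h] at h1 ⊢
  rw [neg_neg]
  have a := h.dis v
  have b := h.dis w
  tauto

theorem sg_symm {F : V → ℝ} {C : Set V} (h : DC F C) {v w : V} (h1 : Sg F v w) : Sg F w v := by
  rw [sg_iff h] at h1 ⊢
  tauto

theorem sg_trans {F : V → ℝ} {C : Set V} (h : DC F C) {u v w : V} (h1 : Sg F u v)
    (h2 : Sg F v w) : Sg F u w := by
  rw [sg_iff h] at h1 h2 ⊢
  have a := h.dis v
  tauto

theorem not_zero {F : V → ℝ} {C : Set V} (h : DC F C) {v : V} : ¬ Sg F v 0 := by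
  intro h1
  have h2 := h1.right
  rw [h.iff, neg_zero, or_self] at h2
  have h3 := h.dis 0 h2
  rw [neg_zero] at h3
  exact h3 h2

theorem sg_open {T : Type*} [TopologicalSpace T] {G : T → V → ℝ}
    (hG : Continuous fun p : T × V => G p.1 p.2) {a b : T → V} (ha : Continuous a)
    (hb : Continuous b) {t : T} (h : Sg (G t) (a t) (b t)) :
    ∀ᶠ t' in 𝓝 t, Sg (G t') (a t') (b t') := by
  refine isCompact_Icc.eventually_forall_of_forall_eventually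
    (P := fun t' s => G t' ((1 - s) • a t' + s • b t') < 0) fun s hs => ?_
  have hc : Continuous fun p : T × ℝ => G p.1 ((1 - p.2) • a p.1 + p.2 • b p.1) := by
    refine hG.comp (continuous_fst.prodMk ?_)
    exact ((continuous_const.sub continuous_snd).smul (ha.comp continuous_fst)).add
      (continuous_snd.smul (hb.comp continuous_fst))
  exact hc.continuousAt.eventually (gt_mem_nhds (h s hs))

/-- a convex set of continuous functions with double cones -/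
structure Fam (𝒬 : Set (V → ℝ)) : Prop where
  ne : 𝒬.Nonempty
  conv : Convex ℝ 𝒬
  cont : ∀ F ∈ 𝒬, Continuous F
  dc : ∀ F ∈ 𝒬, ∃ C, DC F C

/-- the segment from `F` to `F'` -/
def ph (F F' : V → ℝ) (t : ℝ) : V → ℝ := (1 - t) • F + t • F'

theorem ph_apply (F F' : V → ℝ) (t : ℝ) (v : V) : ph F F' t v = (1 - t) * F v + t * F' v := rfl

theorem ph_zero (F F' : V → ℝ) : ph F F' 0 = F := by
  funext v; simp [ph_apply]

theorem ph_one (F F' : V → ℝ) : ph F F' 1 = F' := by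
  funext v; simp [ph_apply]

variable {𝒬 : Set (V → ℝ)}

theorem ph_mem (h : Fam 𝒬) {F F' : V → ℝ} (hF : F ∈ 𝒬) (hF' : F' ∈ 𝒬) {t : ℝ}
    (ht : t ∈ Icc (0 : ℝ) 1) : ph F F' t ∈ 𝒬 :=
  h.conv hF hF' (by linarith [ht.2]) ht.1 (by ring)

theorem ph_cont {F F' : V → ℝ} (hF : Continuous F) (hF' : Continuous F') :
    Continuous fun p : ℝ × V => ph F F' p.1 p.2 := by
  simp only [ph_apply]
  fun_prop

theorem ph_neg {F F' : V → ℝ} {v : V} (hv : F v < 0) (hv' : F' v < 0) {t : ℝ}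
    (ht : t ∈ Icc (0 : ℝ) 1) : ph F F' t v < 0 := by
  rw [ph_apply]
  have h1 : (1 - t) * F v ≤ (1 - t) * max (F v) (F' v) :=
    mul_le_mul_of_nonneg_left (le_max_left _ _) (by linarith [ht.2])
  have h2 : t * F' v ≤ t * max (F v) (F' v) := mul_le_mul_of_nonneg_left (le_max_right _ _) ht.1
  have h3 : max (F v) (F' v) < 0 := max_lt hv hv'
  linarith

/-- one of the functions is negative where a member of the segment is -/
theorem ph_or {F F' : V → ℝ} {v : V} {t : ℝ} (ht : t ∈ Icc (0 : ℝ) 1) (h : ph F F' t v < 0) :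
    F v < 0 ∨ F' v < 0 := by
  by_contra hc
  push Not at hc
  rw [ph_apply] at h
  have h1 := mul_nonneg (sub_nonneg.2 ht.2) hc.1
  have h2 := mul_nonneg ht.1 hc.2
  linarith

theorem z_mem : (0 : ℝ) ∈ Icc (0 : ℝ) 1 := ⟨le_rfl, zero_le_one⟩

theorem o_mem : (1 : ℝ) ∈ Icc (0 : ℝ) 1 := ⟨zero_le_one, le_rfl⟩

/-- two vectors in the same half of the double cone of `F` are in the same half of that of `F'` -/
theorem sg_const (h : Fam 𝒬) {F F' : V → ℝ} (hF : F ∈ 𝒬) (hF' : F' ∈ 𝒬) {v w : V}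
    (h1 : Sg F v w) (hv : F' v < 0) (hw : F' w < 0) : Sg F' v w := by
  obtain ⟨C', hC'⟩ := h.dc F' hF'
  rcases dich hC' hv hw with h2 | h2
  · exact h2
  exfalso
  have hc := ph_cont (h.cont F hF) (h.cont F' hF')
  have hA : IsOpen {t : ℝ | Sg (ph F F' t) v w} := isOpen_iff_mem_nhds.2 fun t ht =>
    sg_open hc continuous_const continuous_const ht
  have hB : IsOpen {t : ℝ | Sg (ph F F' t) v (-w)} := isOpen_iff_mem_nhds.2 fun t ht =>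
    sg_open hc continuous_const continuous_const ht
  obtain ⟨t, ht, h3, h4⟩ := isPreconnected_Icc (a := (0 : ℝ)) (b := 1) _ _ hA hB (fun t ht => by
    obtain ⟨C, hC⟩ := h.dc _ (ph_mem h hF hF' ht)
    exact dich hC (ph_neg h1.left hv ht) (ph_neg h1.right hw ht))
    ⟨0, z_mem, by show Sg (ph F F' 0) v w; rwa [ph_zero]⟩
    ⟨1, o_mem, by show Sg (ph F F' 1) v (-w); rwa [ph_one]⟩
  obtain ⟨C, hC⟩ := h.dc _ (ph_mem h hF hF' ht)
  exact excl hC h3 h4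

/-- the double cones of two functions of the family meet -/
theorem meet (h : Fam 𝒬) {F F' : V → ℝ} (hF : F ∈ 𝒬) (hF' : F' ∈ 𝒬) :
    ∃ v, F v < 0 ∧ F' v < 0 := by
  have hl : ∀ v, Continuous fun t : ℝ => ph F F' t v := fun v => by
    simp only [ph_apply]
    fun_prop
  have hA : IsOpen {t : ℝ | ∃ v, ph F F' t v < 0 ∧ F v < 0} := by
    rw [isOpen_iff_mem_nhds]
    rintro t ⟨v, h1, h2⟩
    filter_upwards [(hl v).continuousAt.eventually (gt_mem_nhds h1)] with t' ht'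
    exact ⟨v, ht', h2⟩
  have hB : IsOpen {t : ℝ | ∃ v, ph F F' t v < 0 ∧ F' v < 0} := by
    rw [isOpen_iff_mem_nhds]
    rintro t ⟨v, h1, h2⟩
    filter_upwards [(hl v).continuousAt.eventually (gt_mem_nhds h1)] with t' ht'
    exact ⟨v, ht', h2⟩
  have hex : ∀ G ∈ 𝒬, ∃ v, G v < 0 := fun G hG => by
    obtain ⟨C, hC⟩ := h.dc G hG
    obtain ⟨v, hv⟩ := hC.ne
    exact ⟨v, (hC.iff v).2 (Or.inl hv)⟩
  obtain ⟨t, ht, ⟨v, h1, h2⟩, ⟨w, h3, h4⟩⟩ :=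
    isPreconnected_Icc (a := (0 : ℝ)) (b := 1) _ _ hA hB (fun t ht => by
      obtain ⟨v, hv⟩ := hex _ (ph_mem h hF hF' ht)
      rcases ph_or ht hv with h1 | h1
      · exact Or.inl ⟨v, hv, h1⟩
      · exact Or.inr ⟨v, hv, h1⟩)
      ⟨0, z_mem, by
        obtain ⟨v, hv⟩ := hex F hF
        exact ⟨v, by rwa [ph_zero], hv⟩⟩
      ⟨1, o_mem, by
        obtain ⟨v, hv⟩ := hex F' hF'
        exact ⟨v, by rwa [ph_one], hv⟩⟩
  obtain ⟨C, hC⟩ := h.dc _ (ph_mem h hF hF' ht)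
  have fin : ∀ w, F' w < 0 → Sg (ph F F' t) v w → ∃ v, F v < 0 ∧ F' v < 0 := by
    intro w hw hs
    have hg : Continuous fun s : ℝ => (1 - s) • v + s • w := by fun_prop
    have o1 : IsOpen {s : ℝ | F ((1 - s) • v + s • w) < 0} :=
      isOpen_lt ((h.cont F hF).comp hg) continuous_const
    have o2 : IsOpen {s : ℝ | F' ((1 - s) • v + s • w) < 0} :=
      isOpen_lt ((h.cont F' hF').comp hg) continuous_const
    obtain ⟨s, -, h5, h6⟩ := isPreconnected_Icc (a := (0 : ℝ)) (b := 1) _ _ o1 o2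
      (fun s hs' => ph_or ht (hs s hs')) ⟨0, z_mem, by simpa using h2⟩
      ⟨1, o_mem, by simpa using hw⟩
    exact ⟨_, h5, h6⟩
  obtain ⟨C', hC'⟩ := h.dc F' hF'
  rcases dich hC h1 h3 with h5 | h5
  · exact fin w h4 h5
  · exact fin (-w) (neg_lt hC' h4) h5

/-- the half of the double cone of `F` which corresponds to that of `F₀` which contains `v₀` -/
def Pos (F₀ : V → ℝ) (v₀ : V) (F : V → ℝ) (v : V) : Prop := ∃ w, Sg F₀ v₀ w ∧ Sg F w v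

variable {F₀ : V → ℝ} {v₀ : V}

theorem Pos.neg {F : V → ℝ} {v : V} (h : Pos F₀ v₀ F v) : F v < 0 := by
  obtain ⟨w, -, h⟩ := h
  exact h.right

theorem exists_wit (h : Fam 𝒬) (h0 : F₀ ∈ 𝒬) (hv0 : F₀ v₀ < 0) {F : V → ℝ} (hF : F ∈ 𝒬) :
    ∃ w, Sg F₀ v₀ w ∧ F w < 0 := by
  obtain ⟨w, h1, h2⟩ := meet h h0 hF
  obtain ⟨C, hC⟩ := h.dc F₀ h0
  obtain ⟨C', hC'⟩ := h.dc F hF
  rcases dich hC hv0 h1 with h3 | h3
  · exact ⟨w, h3, h2⟩
  · exact ⟨-w, h3, neg_lt hC' h2⟩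

theorem pos_iff (h : Fam 𝒬) (h0 : F₀ ∈ 𝒬) {F : V → ℝ} (hF : F ∈ 𝒬) {w : V} (hw : Sg F₀ v₀ w)
    (hw' : F w < 0) {v : V} : Pos F₀ v₀ F v ↔ Sg F w v := by
  constructor
  · rintro ⟨u, h1, h2⟩
    obtain ⟨C, hC⟩ := h.dc F₀ h0
    obtain ⟨C', hC'⟩ := h.dc F hF
    exact sg_trans hC' (sg_const h h0 hF (sg_trans hC (sg_symm hC hw) h1) hw' h2.left) h2
  · exact fun h1 => ⟨w, hw, h1⟩

theorem pos_exists (h : Fam 𝒬) (h0 : F₀ ∈ 𝒬) (hv0 : F₀ v₀ < 0) {F : V → ℝ} (hF : F ∈ 𝒬) :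
    ∃ v, Pos F₀ v₀ F v := by
  obtain ⟨w, h1, h2⟩ := exists_wit h h0 hv0 hF
  obtain ⟨C', hC'⟩ := h.dc F hF
  refine ⟨w, w, h1, ?_⟩
  rw [sg_iff hC']
  rw [hC'.iff] at h2
  tauto

theorem pos_or (h : Fam 𝒬) (h0 : F₀ ∈ 𝒬) (hv0 : F₀ v₀ < 0) {F : V → ℝ} (hF : F ∈ 𝒬) {v : V}
    (hv : F v < 0) : Pos F₀ v₀ F v ∨ Pos F₀ v₀ F (-v) := by
  obtain ⟨w, h1, h2⟩ := exists_wit h h0 hv0 hF
  obtain ⟨C', hC'⟩ := h.dc F hF
  rw [pos_iff h h0 hF h1 h2, pos_iff h h0 hF h1 h2]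
  exact dich hC' h2 hv

theorem pos_excl (h : Fam 𝒬) (h0 : F₀ ∈ 𝒬) {F : V → ℝ} (hF : F ∈ 𝒬) {v : V}
    (hv : Pos F₀ v₀ F v) : ¬ Pos F₀ v₀ F (-v) := by
  obtain ⟨w, h1, h2⟩ := hv
  obtain ⟨C', hC'⟩ := h.dc F hF
  rw [pos_iff h h0 hF h1 h2.left]
  exact excl hC' h2

theorem pos_convex (h : Fam 𝒬) (h0 : F₀ ∈ 𝒬) (hv0 : F₀ v₀ < 0) {F : V → ℝ} (hF : F ∈ 𝒬) :
    Convex ℝ {v | Pos F₀ v₀ F v} := by
  obtain ⟨w, h1, h2⟩ := exists_wit h h0 hv0 hF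
  obtain ⟨C', hC'⟩ := h.dc F hF
  intro a ha b hb s t hs ht hst
  have ha' : Pos F₀ v₀ F a := ha
  have hb' : Pos F₀ v₀ F b := hb
  show Pos F₀ v₀ F (s • a + t • b)
  rw [pos_iff h h0 hF h1 h2, sg_iff hC'] at ha' hb' ⊢
  have hd := hC'.dis w
  rcases ha' with ⟨x, y⟩ | ⟨x, y⟩
  · rcases hb' with ⟨x', y'⟩ | ⟨x', y'⟩
    · exact Or.inl ⟨x, hC'.conv y y' hs ht hst⟩
    · exact absurd x' (hd x)
  · rcases hb' with ⟨x', y'⟩ | ⟨x', y'⟩
    · exact absurd x (hd x')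
    · refine Or.inr ⟨x, ?_⟩
      have := hC'.conv y y' hs ht hst
      rwa [smul_neg, smul_neg, ← neg_add] at this

theorem pos_open {T : Type*} [TopologicalSpace T] {G : T → V → ℝ}
    (hG : Continuous fun p : T × V => G p.1 p.2) {b : T → V} (hb : Continuous b) {t : T}
    (h : Pos F₀ v₀ (G t) (b t)) : ∀ᶠ t' in 𝓝 t, Pos F₀ v₀ (G t') (b t') := by
  obtain ⟨w, h1, h2⟩ := h
  filter_upwards [sg_open hG (a := fun _ => w) continuous_const hb h2] with t' ht'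
  exact ⟨w, h1, ht'⟩

theorem pos_const (h : Fam 𝒬) (h0 : F₀ ∈ 𝒬) (hv0 : F₀ v₀ < 0) {F F' : V → ℝ} (hF : F ∈ 𝒬)
    (hF' : F' ∈ 𝒬) {v : V} (h1 : Pos F₀ v₀ F v) (hv : F' v < 0) : Pos F₀ v₀ F' v := by
  rcases pos_or h h0 hv0 hF' hv with h2 | h2
  · exact h2
  exfalso
  have hc := ph_cont (h.cont F hF) (h.cont F' hF')
  have hA : IsOpen {t : ℝ | Pos F₀ v₀ (ph F F' t) v} := isOpen_iff_mem_nhds.2 fun t ht =>
    pos_open hc continuous_const ht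
  have hB : IsOpen {t : ℝ | Pos F₀ v₀ (ph F F' t) (-v)} := isOpen_iff_mem_nhds.2 fun t ht =>
    pos_open hc continuous_const ht
  obtain ⟨t, ht, h3, h4⟩ := isPreconnected_Icc (a := (0 : ℝ)) (b := 1) _ _ hA hB (fun t ht =>
    pos_or h h0 hv0 (ph_mem h hF hF' ht) (ph_neg h1.neg hv ht))
    ⟨0, z_mem, by show Pos F₀ v₀ (ph F F' 0) v; rwa [ph_zero]⟩
    ⟨1, o_mem, by show Pos F₀ v₀ (ph F F' 1) (-v); rwa [ph_one]⟩
  exact pos_excl h h0 (ph_mem h hF hF' ht) h3 h4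

/-! ## Linear maps -/

/-- `A` preserves the chosen halves -/
def Or (𝒬 : Set (V → ℝ)) (F₀ : V → ℝ) (v₀ : V) (A : V → V) : Prop :=
  ∀ F ∈ 𝒬, ∀ v, F (A v) < 0 → (Pos F₀ v₀ (F ∘ A) v ↔ Pos F₀ v₀ F (A v))

theorem sg_map {A : V →ₗ[ℝ] V} {F : V → ℝ} {v w : V} : Sg (F ∘ A) v w ↔ Sg F (A v) (A w) := by
  unfold Sg
  simp only [Function.comp_apply, map_add, map_smul]

theorem or_of (h : Fam 𝒬) (h0 : F₀ ∈ 𝒬) (hv0 : F₀ v₀ < 0) {A : V →ₗ[ℝ] V}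
    (hA : ∀ F ∈ 𝒬, F ∘ A ∈ 𝒬) {F : V → ℝ} (hF : F ∈ 𝒬) {v : V} (hv : F (A v) < 0)
    (hS : Pos F₀ v₀ (F ∘ A) v ↔ Pos F₀ v₀ F (A v)) : Or 𝒬 F₀ v₀ A := by
  -- the same function, another vector
  have step1 : ∀ G ∈ 𝒬, ∀ a b, G (A a) < 0 → G (A b) < 0 →
      (Pos F₀ v₀ (G ∘ A) a ↔ Pos F₀ v₀ G (A a)) → (Pos F₀ v₀ (G ∘ A) b ↔ Pos F₀ v₀ G (A b)) := by
    intro G hG a b ha hb hab
    obtain ⟨w, w1, w2⟩ := exists_wit h h0 hv0 (hA G hG)
    obtain ⟨w', w1', w2'⟩ := exists_wit h h0 hv0 hG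
    rw [pos_iff h h0 (hA G hG) w1 w2, pos_iff h h0 hG w1' w2'] at hab ⊢
    obtain ⟨C, hC⟩ := h.dc G hG
    have w3 : G (A w) < 0 := w2
    rw [sg_map, sg_side hC w3 ha, sg_side hC w2' ha] at hab
    rw [sg_map, sg_side hC w3 hb, sg_side hC w2' hb]
    by_cases c1 : A w ∈ C <;> by_cases c2 : w' ∈ C <;> by_cases c3 : A a ∈ C <;>
      by_cases c4 : A b ∈ C <;> simp_all
  intro G hG b hb
  obtain ⟨a, ha1, ha2⟩ := meet h (hA F hF) (hA G hG)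
  refine step1 G hG a b ha2 hb ?_
  have h1 := step1 F hF v a hv ha1 hS
  have e1 : Pos F₀ v₀ (F ∘ A) a ↔ Pos F₀ v₀ (G ∘ A) a :=
    ⟨fun h2 => pos_const h h0 hv0 (hA F hF) (hA G hG) h2 ha2,
      fun h2 => pos_const h h0 hv0 (hA G hG) (hA F hF) h2 ha1⟩
  have e2 : Pos F₀ v₀ F (A a) ↔ Pos F₀ v₀ G (A a) :=
    ⟨fun h2 => pos_const h h0 hv0 hF hG h2 ha2,
      fun h2 => pos_const h h0 hv0 hG hF h2 ha1⟩
  rw [← e1, ← e2]
  exact h1

theorem or_comp (h : Fam 𝒬) (h0 : F₀ ∈ 𝒬) (hv0 : F₀ v₀ < 0) {A B : V →ₗ[ℝ] V}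
    (hA : ∀ F ∈ 𝒬, F ∘ A ∈ 𝒬) (hB : ∀ F ∈ 𝒬, F ∘ B ∈ 𝒬) :
    Or 𝒬 F₀ v₀ (A ∘ₗ B) ↔ (Or 𝒬 F₀ v₀ A ↔ Or 𝒬 F₀ v₀ B) := by
  have hAB : ∀ F ∈ 𝒬, F ∘ (A ∘ₗ B) ∈ 𝒬 := fun F hF => hB _ (hA F hF)
  obtain ⟨v, hv⟩ := pos_exists h h0 hv0 (hAB F₀ h0)
  have hn : F₀ (A (B v)) < 0 := hv.neg
  have a1 : Or 𝒬 F₀ v₀ (A ∘ₗ B) ↔
      (Pos F₀ v₀ (F₀ ∘ (A ∘ₗ B)) v ↔ Pos F₀ v₀ F₀ (A (B v))) :=
    ⟨fun h1 => h1 F₀ h0 v hn, fun h1 => or_of h h0 hv0 hAB h0 hn h1⟩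
  have a2 : Or 𝒬 F₀ v₀ A ↔ (Pos F₀ v₀ (F₀ ∘ A) (B v) ↔ Pos F₀ v₀ F₀ (A (B v))) :=
    ⟨fun h1 => h1 F₀ h0 (B v) hn, fun h1 => or_of h h0 hv0 hA h0 hn h1⟩
  have a3 : Or 𝒬 F₀ v₀ B ↔ (Pos F₀ v₀ ((F₀ ∘ A) ∘ B) v ↔ Pos F₀ v₀ (F₀ ∘ A) (B v)) :=
    ⟨fun h1 => h1 _ (hA F₀ h0) v hn, fun h1 => or_of h h0 hv0 hB (hA F₀ h0) hn h1⟩
  rw [a1, a2, a3]
  have e : (F₀ ∘ A) ∘ B = F₀ ∘ (A ∘ₗ B) := rfl
  rw [e]
  tauto

/-! ## The cone over a family -/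

/-- the positive multiples -/
def cone (𝒬 : Set (V → ℝ)) : Set (V → ℝ) := {F | ∃ c : ℝ, 0 < c ∧ ∃ G ∈ 𝒬, F = c • G}

theorem cone_fam (h : Fam 𝒬) : Fam (cone 𝒬) := by
  refine ⟨?_, ?_, ?_, ?_⟩
  · obtain ⟨F, hF⟩ := h.ne
    exact ⟨F, 1, one_pos, F, hF, by rw [one_smul]⟩
  · rintro _ ⟨c, hc, G, hG, rfl⟩ _ ⟨d, hd, G', hG', rfl⟩ s t hs ht hst
    have hpos : 0 < s * c + t * d := by
      rcases eq_or_lt_of_le hs with h1 | h1
      · have : t = 1 := by linarith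
        subst this
        rw [← h1]
        linarith
      · have h2 := mul_pos h1 hc
        have h3 := mul_nonneg ht hd.le
        linarith
    refine ⟨s * c + t * d, hpos, (s * c / (s * c + t * d)) • G + (t * d / (s * c + t * d)) • G',
      h.conv hG hG' (by positivity) (by positivity) (by field_simp), ?_⟩
    funext v
    simp only [Pi.add_apply, Pi.smul_apply, smul_eq_mul]
    field_simp
  · rintro _ ⟨c, hc, G, hG, rfl⟩
    exact continuous_const.mul (h.cont G hG)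
  · rintro _ ⟨c, hc, G, hG, rfl⟩
    obtain ⟨C, hC⟩ := h.dc G hG
    refine ⟨C, hC.op, hC.conv, hC.ne, fun v => ?_, hC.dis⟩
    rw [← hC.iff]
    show c * G v < 0 ↔ _
    constructor
    · intro h1
      by_contra h2
      have := mul_nonneg hc.le (not_lt.1 h2)
      linarith
    · exact fun h1 => mul_neg_of_pos_of_neg hc h1

theorem cone_add (h : Fam 𝒬) {F G : V → ℝ} (hF : F ∈ cone 𝒬) (hG : G ∈ cone 𝒬) :
    F + G ∈ cone 𝒬 := by
  obtain ⟨c, hc, F', hF', rfl⟩ := hF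
  obtain ⟨d, hd, G', hG', rfl⟩ := hG
  refine ⟨c + d, by positivity, (c / (c + d)) • F' + (d / (c + d)) • G',
    h.conv hF' hG' (by positivity) (by positivity) (by field_simp), ?_⟩
  funext v
  simp only [Pi.add_apply, Pi.smul_apply, smul_eq_mul]
  field_simp

theorem cone_smul {F : V → ℝ} (hF : F ∈ cone 𝒬) {c : ℝ} (hc : 0 < c) : c • F ∈ cone 𝒬 := by
  obtain ⟨d, hd, G, hG, rfl⟩ := hF
  exact ⟨c * d, by positivity, G, hG, by rw [smul_smul]⟩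

theorem cone_sum (h : Fam 𝒬) {ι : Type*} (s : Finset ι) (hs : s.Nonempty) (f : ι → V → ℝ)
    (hf : ∀ i ∈ s, f i ∈ cone 𝒬) : ∑ i ∈ s, f i ∈ cone 𝒬 := by
  classical
  induction hs using Finset.Nonempty.cons_induction with
  | singleton a => simpa using hf a (by simp)
  | cons a s ha hs ih =>
    rw [Finset.sum_cons]
    exact cone_add h (hf a (by simp)) (ih fun i hi => hf i (by simp [hi]))

end Pool.Agent.H34.CH
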