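import Pool.Agent.H34.CH.Gen

/-!
# Families on representations, for the manifold and for the minimal invariant subspace
-/

set_option autoImplicit false

open Set Filter Topology

namespace Pool.Agent.H34.CH

open Pool.Agent.W689.Ch Pool.Agent.TH845.Mk Pool.Agent.Y150.Ch
open Pool.Agent.W689.Mk (lin hol_add hol_sub hol_inv_apply hol_apply_inv lin_inv_apply lin_mul
  lin_smul hol_cont)

variable {X Γ E V : Type} [TopologicalSpace X] [T2Space X] [Group Γ] [MulAction Γ X]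
  [NormedAddCommGroup E] [NormedSpace ℝ E] [FiniteDimensional ℝ E]
  [NormedAddCommGroup V] [NormedSpace ℝ V] [FiniteDimensional ℝ V]
  {dev : X → E} {hol : Γ →* (E ≃ᵃ[ℝ] E)}

/-- both kinds of families -/
theorem field_of_both (D : AffMfd X Γ E dev hol) (l : Γ →* Module.End ℝ V) (ι : X → V →ₗ[ℝ] E)
    (hι : Continuous fun p : X × V => ι p.1 p.2)
    (hιe : ∀ (γ : Γ) x v, ι (γ • x) (l γ v) = lin hol γ (ι x v))
    {𝒬 : Set (V → ℝ)} (h : Fam1 𝒬 ∨ Fam 𝒬)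
    (hinv : ∀ γ : Γ, ∀ F ∈ 𝒬, ∃ F' ∈ 𝒬, ∃ c : ℝ, 0 < c ∧ ∀ v, F (l γ v) = c * F' v)
    (hne : ∀ F ∈ 𝒬, ∀ v, F v < 0 → ∀ x, ι x v ≠ 0) :
    ∃ K₁ : Subgroup Γ, K₁.index ≤ 2 ∧ K₁.index ≠ 0 ∧
      ∃ Z : X → E, Continuous Z ∧ (∀ γ ∈ K₁, ∀ x, Z (γ • x) = lin hol γ (Z x)) ∧
        ∀ x, Z x ≠ 0 := by
  rcases h with h | h
  · obtain ⟨Z, h1, h2, h3⟩ := field_of_rep1 D l ι hι hιe h hinv hne
    refine ⟨⊤, ?_, ?_, Z, h1, fun γ _ => h2 γ, h3⟩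
    · rw [Subgroup.index_top]; norm_num
    · rw [Subgroup.index_top]; norm_num
  · exact field_of_rep D l ι hι hιe h hinv hne

/-- the whole manifold -/
theorem whole (D : AffMfd X Γ E dev hol) (K : Subgroup Γ) (hK : K.FiniteIndex)
    (l : K →* Module.End ℝ V) (ι : X → V →ₗ[ℝ] E)
    (hι : Continuous fun p : X × V => ι p.1 p.2)
    (hιe : ∀ (γ : K) x v, ι (γ.1 • x) (l γ v) = lin hol γ.1 (ι x v))
    {𝒬 : Set (V → ℝ)} (h : Fam1 𝒬 ∨ Fam 𝒬)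
    (hinv : ∀ γ : K, ∀ F ∈ 𝒬, ∃ F' ∈ 𝒬, ∃ c : ℝ, 0 < c ∧ ∀ v, F (l γ v) = c * F' v)
    (hne : ∀ F ∈ 𝒬, ∀ v, F v < 0 → ∀ x, ι x v ≠ 0) :
    ∃ K' ≤ K, K'.FiniteIndex ∧ K'.index ≤ 2 * K.index ∧
      ∃ Z : X → E, Continuous Z ∧ (∀ γ ∈ K', ∀ x, Z (γ • x) = lin hol γ (Z x)) ∧
        ∀ x, Z x ≠ 0 := by
  obtain ⟨K₁, h1, h2, Z, hZ1, hZ2, hZ3⟩ := field_of_both (restr D K hK) l ι hι hιe h hinv hne
  refine ⟨K₁.map K.subtype, Subgroup.map_subtype_le _, ⟨?_⟩, ?_, Z, hZ1, ?_, hZ3⟩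
  · rw [Subgroup.index_map_subtype]
    exact mul_ne_zero h2 hK.index_ne_zero
  · rw [Subgroup.index_map_subtype]
    exact Nat.mul_le_mul_right _ h1
  · rintro γ hγ x
    obtain ⟨δ, hδ, rfl⟩ := Subgroup.mem_map.1 hγ
    exact hZ2 δ hδ x

variable {G : Subgroup Γ} {H : AffineSubspace ℝ E} {x₀ : X}

/-- the minimal invariant subspace -/
theorem no_rep (D : AffMfd X Γ E dev hol) (m : Min dev hol G H x₀) {K : Subgroup Γ} (hKG : K ≤ G)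
    (hK : K.FiniteIndex) (l : K →* Module.End ℝ V) (ι : X → V →ₗ[ℝ] E)
    (hι : ContinuousOn (fun p : X × V => ι p.1 p.2) {p | dev p.1 ∈ H})
    (hιt : ∀ x, dev x ∈ H → ∀ v, ι x v ∈ H.direction)
    (hιe : ∀ (γ : K) x, dev x ∈ H → ∀ v, ι (γ.1 • x) (l γ v) = lin hol γ.1 (ι x v))
    {𝒬 : Set (V → ℝ)} (h : Fam1 𝒬 ∨ Fam 𝒬)
    (hinv : ∀ γ : K, ∀ F ∈ 𝒬, ∃ F' ∈ 𝒬, ∃ c : ℝ, 0 < c ∧ ∀ v, F (l γ v) = c * F' v) :
    ∃ F ∈ 𝒬, ∃ v, F v < 0 ∧ ∃ x, dev x ∈ H ∧ ι x v = 0 := by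
  by_contra hcon
  push Not at hcon
  have hinvH : ∀ (γ : K), ∀ q ∈ H, (hol.comp K.subtype) γ q ∈ H :=
    fun γ q hq => m.inv γ.1 (hKG γ.2) q hq
  letI act1 := subAct (restr D K hK) hinvH
  have D1 := subMfd (restr D K hK) m.mem hinvH
  let ι' : {x : X // dev x ∈ H} → V →ₗ[ℝ] H.direction := fun x =>
    (ι x.1).codRestrict H.direction (hιt x.1 x.2)
  have hι' : Continuous fun p : {x : X // dev x ∈ H} × V => ι' p.1 p.2 := by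
    refine Continuous.subtype_mk ?_ _
    have hc : Continuous fun p : {x : X // dev x ∈ H} × V => ((p.1 : X), p.2) :=
      (continuous_subtype_val.comp continuous_fst).prodMk continuous_snd
    exact hι.comp_continuous hc fun p => p.1.2
  obtain ⟨K₁, -, hK₁, Z, hZ1, hZ2, hZ3⟩ := field_of_both D1 l ι' hι'
    (fun γ x v => Subtype.ext (hιe γ x.1 x.2 v)) h hinv
    (fun F hF v hv x hx => hcon F hF v hv x.1 x.2 (congrArg Subtype.val hx))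
  have hle : K₁.map K.subtype ≤ K := Subgroup.map_subtype_le _
  have hfin : (K₁.map K.subtype).FiniteIndex := by
    refine ⟨?_⟩
    rw [Subgroup.index_map_subtype]
    exact mul_ne_zero hK₁ hK.index_ne_zero
  have hinvH' : ∀ (γ : K₁.map K.subtype), ∀ q ∈ H,
      (hol.comp (K₁.map K.subtype).subtype) γ q ∈ H :=
    fun γ q hq => m.inv γ.1 (hKG (hle γ.2)) q hq
  refine m.fld _ (hle.trans hKG) hfin (fld_of_sub (restr D _ hfin) m.mem hinvH' ?_)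
  refine ⟨Z, hZ1, ?_, hZ3⟩
  rintro ⟨γ, hγ⟩ x
  obtain ⟨δ, hδ, rfl⟩ := Subgroup.mem_map.1 hγ
  exact hZ2 δ hδ x

end Pool.Agent.H34.CH
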