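import Pool.Agent.H34.CH.Core

/-!
# Families on representations of the fundamental group
-/

set_option autoImplicit false

open Set Filter Topology

namespace Pool.Agent.H34.CH

open Pool.Agent.W689.Ch Pool.Agent.TH845.Mk Pool.Agent.Y150.Ch
open Pool.Agent.W689.Mk (lin hol_add hol_sub hol_inv_apply hol_apply_inv lin_inv_apply lin_mul
  lin_smul hol_cont)

variable {X Γ E V : Type} [TopologicalSpace X] [T2Space X] [Group Γ] [MulAction Γ X]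
  [NormedAddCommGroup E] [NormedSpace ℝ E] [FiniteDimensional ℝ E]
  [NormedAddCommGroup V] [NormedSpace ℝ V] [FiniteDimensional ℝ V]
  {dev : X → E} {hol : Γ →* (E ≃ᵃ[ℝ] E)}

/-- An equivariant map to the space of a representation, from a selection `P`. -/
theorem map_of_sel (D : AffMfd X Γ E dev hol) (l : Γ →* Module.End ℝ V) {𝒞 : Set (V → ℝ)}
    (hsum : ∀ (s : Finset Γ) (f : Γ → V → ℝ), s.Nonempty → (∀ i ∈ s, f i ∈ 𝒞) →
      ∑ i ∈ s, f i ∈ 𝒞) (hsm : ∀ F ∈ 𝒞, ∀ c : ℝ, 0 < c → c • F ∈ 𝒞)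
    (hinv : ∀ γ : Γ, ∀ F ∈ 𝒞, F ∘ l γ ∈ 𝒞) {F₀ : V → ℝ} (h0 : F₀ ∈ 𝒞) (h0c : Continuous F₀)
    {P : (V → ℝ) → V → Prop} (P1 : ∀ F ∈ 𝒞, ∃ v, P F v) (P2 : ∀ F ∈ 𝒞, Convex ℝ {v | P F v})
    (P3 : ∀ F v, P F v → F v < 0)
    (P4 : ∀ G : X → V → ℝ, (Continuous fun p : X × V => G p.1 p.2) → ∀ x v, P (G x) v →
      ∀ᶠ x' in 𝓝 x, P (G x') v)
    (P5 : ∀ γ : Γ, ∀ F ∈ 𝒞, ∀ v, P (F ∘ l γ) v → P F (l γ v)) :
    ∃ s : X → V, Continuous s ∧ (∀ (γ : Γ) x, s (γ • x) = l γ (s x)) ∧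
      ∀ x, ∃ F ∈ 𝒞, F (s x) < 0 := by
  classical
  have := locComp D
  obtain ⟨ρ, hρ⟩ := exists_wt D
  let Q : X → V → ℝ := fun x v => ∑' γ : Γ, ρ (γ • x) * F₀ (l γ v)
  have hLc : ∀ γ : Γ, Continuous (l γ) := fun γ => LinearMap.continuous_of_finiteDimensional _
  have hlm : ∀ (a b : Γ) v, l (a * b) v = l a (l b v) := fun a b v => by
    rw [map_mul]; rfl
  -- joint continuity
  have hQc : Continuous fun p : X × V => Q p.1 p.2 := by
    rw [continuous_iff_continuousAt]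
    rintro ⟨x, v⟩
    obtain ⟨U, hU, F, hF⟩ := hρ.locfin x
    have h1 : ∀ᶠ p : X × V in 𝓝 (x, v),
        ∑ γ ∈ F, ρ (γ • p.1) * F₀ (l γ p.2) = Q p.1 p.2 := by
      have h2 : U ×ˢ (univ : Set V) ∈ 𝓝 (x, v) := prod_mem_nhds hU univ_mem
      filter_upwards [h2] with p hp
      exact (tsum_eq_sum fun γ hγ => by rw [hF γ hγ p.1 hp.1, zero_mul]).symm
    have h2 : Continuous fun p : X × V => ∑ γ ∈ F, ρ (γ • p.1) * F₀ (l γ p.2) :=
      continuous_finsetSum _ fun γ _ =>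
        (hρ.cont.comp ((D.cont γ).comp continuous_fst)).mul
          (h0c.comp ((hLc γ).comp continuous_snd))
    exact h2.continuousAt.congr h1
  -- members of the cone
  have hQm : ∀ x, Q x ∈ 𝒞 := by
    intro x
    obtain ⟨U, hU, F, hF⟩ := hρ.locfin x
    have hx := mem_of_mem_nhds hU
    have hs : ∑ γ ∈ F, ρ (γ • x) = 1 := by
      rw [← hρ.sum x]
      exact (tsum_eq_sum fun γ hγ => hF γ hγ x hx).symm
    have e1 : Q x = ∑ γ ∈ F.filter (fun γ => ρ (γ • x) ≠ 0), ρ (γ • x) • (F₀ ∘ l γ) := by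
      funext v
      have e2 : Q x v = ∑ γ ∈ F, ρ (γ • x) * F₀ (l γ v) :=
        tsum_eq_sum fun γ hγ => by rw [hF γ hγ x hx, zero_mul]
      rw [e2, Finset.sum_apply, Finset.sum_filter]
      refine Finset.sum_congr rfl fun γ _ => ?_
      by_cases c : ρ (γ • x) = 0
      · rw [if_neg (not_not.2 c), c, zero_mul]
      · rw [if_pos c]
        rfl
    rw [e1]
    refine hsum _ _ ?_ fun γ hγ => ?_
    · by_contra hemp
      rw [Finset.not_nonempty_iff_eq_empty, Finset.filter_eq_empty_iff] at hemp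
      have : ∑ γ ∈ F, ρ (γ • x) = 0 := Finset.sum_eq_zero fun γ hγ => not_not.1 (hemp hγ)
      rw [this] at hs
      exact zero_ne_one hs
    · have h3 : ρ (γ • x) ≠ 0 := (Finset.mem_filter.1 hγ).2
      exact hsm _ (hinv γ _ h0) _ (lt_of_le_of_ne (hρ.nonneg _) h3.symm)
  -- equivariance
  have hQi : ∀ (δ : Γ) x, Q (δ • x) ∘ l δ = Q x := by
    intro δ x
    funext v
    show ∑' γ : Γ, ρ (γ • δ • x) * F₀ (l γ (l δ v)) = ∑' γ : Γ, ρ (γ • x) * F₀ (l γ v)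
    rw [← Equiv.tsum_eq (Equiv.mulRight δ) (fun γ : Γ => ρ (γ • x) * F₀ (l γ v))]
    refine tsum_congr fun γ => ?_
    show ρ (γ • δ • x) * F₀ (l γ (l δ v)) = ρ ((γ * δ) • x) * F₀ (l (γ * δ) v)
    rw [smul_smul, hlm]
  -- a local section
  have hne : ∀ x, ∃ v, P (Q x) v := fun x => P1 _ (hQm x)
  choose y hy using hne
  have hU : ∀ x, ∃ U : Set X, IsOpen U ∧ x ∈ U ∧ ∀ x' ∈ U, P (Q x') (y x) := by
    intro x
    obtain ⟨U, hU1, hU2, hU3⟩ := eventually_nhds_iff.1 (P4 Q hQc _ _ (hy x))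
    exact ⟨U, hU2, hU3, hU1⟩
  choose U hUo hUx hUy using hU
  obtain ⟨t, ht⟩ := hρ.cpt.isCompact.elim_finite_subcover U hUo
    (fun x _ => mem_iUnion.2 ⟨x, hUx x⟩)
  let e := t.equivFin
  obtain ⟨f, hf1, hf2, hf3, -⟩ := exists_continuous_sum_one_of_isOpen_isCompact
    (s := fun i : Fin t.card => U (e.symm i).1) (fun i => hUo _) hρ.cpt.isCompact (by
      intro x hx
      obtain ⟨z, hz⟩ := mem_iUnion.1 (ht hx)
      obtain ⟨hzt, hxz⟩ := mem_iUnion.1 hz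
      refine mem_iUnion.2 ⟨e ⟨z, hzt⟩, ?_⟩
      rw [Equiv.symm_apply_apply]
      exact hxz)
  let W : X → V := fun x => ∑ i, f i x • y (e.symm i).1
  have hW : Continuous W := continuous_finsetSum _ fun i _ =>
    (f i).continuous.smul continuous_const
  have hWm : ∀ z, ρ z ≠ 0 → P (Q z) (W z) := by
    intro z hz
    have hzt : z ∈ tsupport ρ := subset_tsupport _ hz
    have hs : ∑ i, f i z = 1 := by
      have := hf2 hzt
      simpa using this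
    have e2 : W z = ∑ i ∈ Finset.univ.filter (fun i => f i z ≠ 0), f i z • y (e.symm i).1 := by
      rw [Finset.sum_filter]
      refine Finset.sum_congr rfl fun i _ => ?_
      by_cases h : f i z = 0
      · rw [if_neg (not_not.2 h), h, zero_smul]
      · rw [if_pos h]
    have e3 : ∑ i ∈ Finset.univ.filter (fun i => f i z ≠ 0), f i z = 1 := by
      rw [← hs, Finset.sum_filter]
      refine Finset.sum_congr rfl fun i _ => ?_
      by_cases h : f i z = 0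
      · rw [if_neg (not_not.2 h), h]
      · rw [if_pos h]
    rw [e2]
    refine (P2 _ (hQm z)).sum_mem (fun i _ => (hf3 i z).1) e3 fun i hi => ?_
    have h3 : f i z ≠ 0 := (Finset.mem_filter.1 hi).2
    exact hUy _ z (hf1 i (subset_tsupport _ h3))
  -- the average
  let s : X → V := fun x => ∑' γ : Γ, ρ (γ • x) • l γ⁻¹ (W (γ • x))
  have hs1 : Continuous s := by
    refine cont_tsum (X := X) (Γ := Γ) (fun γ => (hρ.cont.comp (D.cont γ)).smul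
      ((hLc _).comp (hW.comp (D.cont γ)))) fun x => ?_
    obtain ⟨U, hU, F, hF⟩ := hρ.locfin x
    exact ⟨U, hU, F, fun γ hγ y hy => by rw [hF γ hγ y hy, zero_smul]⟩
  refine ⟨s, hs1, fun δ x => ?_, fun x => ⟨Q x, hQm x, ?_⟩⟩
  · obtain ⟨U, hU, F, hF⟩ := hρ.locfin x
    have hx := mem_of_mem_nhds hU
    have e1 : s x = ∑ γ ∈ F, ρ (γ • x) • l γ⁻¹ (W (γ • x)) :=
      tsum_eq_sum fun γ hγ => by rw [hF γ hγ x hx, zero_smul]
    have e2 : s (δ • x) = ∑' γ : Γ, ρ (γ • x) • l (δ * γ⁻¹) (W (γ • x)) := by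
      show ∑' γ : Γ, ρ (γ • δ • x) • l γ⁻¹ (W (γ • δ • x)) = _
      rw [← Equiv.tsum_eq (Equiv.mulRight δ)
        (fun γ : Γ => ρ (γ • x) • l (δ * γ⁻¹) (W (γ • x)))]
      refine tsum_congr fun γ => ?_
      show ρ (γ • δ • x) • l γ⁻¹ (W (γ • δ • x)) =
        ρ ((γ * δ) • x) • l (δ * (γ * δ)⁻¹) (W ((γ * δ) • x))
      rw [smul_smul, mul_inv_rev, mul_inv_cancel_left]
    have e3 : ∑' γ : Γ, ρ (γ • x) • l (δ * γ⁻¹) (W (γ • x)) =
        ∑ γ ∈ F, ρ (γ • x) • l (δ * γ⁻¹) (W (γ • x)) :=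
      tsum_eq_sum fun γ hγ => by rw [hF γ hγ x hx, zero_smul]
    rw [e2, e3, e1, map_sum]
    refine Finset.sum_congr rfl fun γ _ => ?_
    rw [map_smul, hlm]
  · obtain ⟨U, hU, F, hF⟩ := hρ.locfin x
    have hx := mem_of_mem_nhds hU
    have hsum : ∑ γ ∈ F, ρ (γ • x) = 1 := by
      rw [← hρ.sum x]
      exact (tsum_eq_sum fun γ hγ => hF γ hγ x hx).symm
    have e1 : s x = ∑ γ ∈ F.filter (fun γ => ρ (γ • x) ≠ 0),
        ρ (γ • x) • l γ⁻¹ (W (γ • x)) := by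
      have e2 : s x = ∑ γ ∈ F, ρ (γ • x) • l γ⁻¹ (W (γ • x)) :=
        tsum_eq_sum fun γ hγ => by rw [hF γ hγ x hx, zero_smul]
      rw [e2, Finset.sum_filter]
      refine Finset.sum_congr rfl fun γ _ => ?_
      by_cases h : ρ (γ • x) = 0
      · rw [if_neg (not_not.2 h), h, zero_smul]
      · rw [if_pos h]
    have e3 : ∑ γ ∈ F.filter (fun γ => ρ (γ • x) ≠ 0), ρ (γ • x) = 1 := by
      rw [← hsum, Finset.sum_filter]
      refine Finset.sum_congr rfl fun γ _ => ?_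
      by_cases h : ρ (γ • x) = 0
      · rw [if_neg (not_not.2 h), h]
      · rw [if_pos h]
    refine P3 _ _ ?_
    rw [e1]
    refine (P2 _ (hQm x)).sum_mem (fun γ _ => hρ.nonneg _) e3 fun γ hγ => ?_
    have h9 := hWm (γ • x) (Finset.mem_filter.1 hγ).2
    have e4 : Q (γ • x) = Q x ∘ l γ⁻¹ := by
      have := hQi γ⁻¹ (γ • x)
      rw [inv_smul_smul] at this
      exact this.symm
    rw [e4] at h9
    exact P5 γ⁻¹ _ (hQm x) _ h9

/-- An equivariant map to the space of a representation. -/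
theorem map_of_or (D : AffMfd X Γ E dev hol) (l : Γ →* Module.End ℝ V) {𝒬 : Set (V → ℝ)}
    (h : Fam 𝒬) (hinv : ∀ γ : Γ, ∀ F ∈ cone 𝒬, F ∘ l γ ∈ cone 𝒬) {F₀ : V → ℝ}
    (h0 : F₀ ∈ cone 𝒬) {v₀ : V} (hv0 : F₀ v₀ < 0)
    (hor : ∀ γ : Γ, Or (cone 𝒬) F₀ v₀ (l γ)) :
    ∃ s : X → V, Continuous s ∧ (∀ (γ : Γ) x, s (γ • x) = l γ (s x)) ∧
      ∀ x, ∃ F ∈ cone 𝒬, F (s x) < 0 := by
  have hf := cone_fam h
  refine map_of_sel D l (P := fun F v => Pos F₀ v₀ F v) (fun s f hs hfs => cone_sum h s hs f hfs)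
    (fun F hF c hc => cone_smul hF hc) hinv h0 (hf.cont _ h0)
    (fun F hF => pos_exists hf h0 hv0 hF) (fun F hF => pos_convex hf h0 hv0 hF)
    (fun F v hv => hv.neg) (fun G hG x v hv => pos_open (G := G) hG (b := fun _ => v)
      continuous_const hv) (fun γ F hF v hv => (hor γ F hF v hv.neg).1 hv)

/-- one-sided families -/
structure Fam1 (𝒬 : Set (V → ℝ)) : Prop where
  ne : 𝒬.Nonempty
  conv : Convex ℝ 𝒬
  cont : ∀ F ∈ 𝒬, Continuous F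
  cvx : ∀ F ∈ 𝒬, Convex ℝ {v | F v < 0}
  neg : ∀ F ∈ 𝒬, ∃ v, F v < 0

omit [FiniteDimensional ℝ V] in
theorem cone_sum1 {𝒬 : Set (V → ℝ)} (h : Convex ℝ 𝒬) {κ : Type} (s : Finset κ)
    (f : κ → V → ℝ) (hs : s.Nonempty) (hf : ∀ i ∈ s, f i ∈ cone 𝒬) : ∑ i ∈ s, f i ∈ cone 𝒬 := by
  classical
  induction hs using Finset.Nonempty.cons_induction with
  | singleton a => simpa using hf a (by simp)
  | cons a s ha hs ih =>
    rw [Finset.sum_cons]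
    obtain ⟨c, hc, F', hF', e1⟩ := hf a (by simp)
    obtain ⟨d, hd, G', hG', e2⟩ := ih fun i hi => hf i (by simp [hi])
    rw [e1, e2]
    refine ⟨c + d, by positivity, (c / (c + d)) • F' + (d / (c + d)) • G',
      h hF' hG' (by positivity) (by positivity) (by field_simp), ?_⟩
    funext v
    simp only [Pi.add_apply, Pi.smul_apply, smul_eq_mul]
    field_simp

omit [FiniteDimensional ℝ V] in
theorem cone_neg {𝒬 : Set (V → ℝ)} {F : V → ℝ} (hF : F ∈ cone 𝒬) :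
    ∃ G ∈ 𝒬, ∀ v, F v < 0 ↔ G v < 0 := by
  obtain ⟨c, hc, G, hG, rfl⟩ := hF
  refine ⟨G, hG, fun v => ?_⟩
  show c * G v < 0 ↔ _
  constructor
  · intro h1
    by_contra h2
    have := mul_nonneg hc.le (not_lt.1 h2)
    linarith
  · exact fun h1 => mul_neg_of_pos_of_neg hc h1

theorem map_of_one (D : AffMfd X Γ E dev hol) (l : Γ →* Module.End ℝ V) {𝒬 : Set (V → ℝ)}
    (h : Fam1 𝒬) (hinv : ∀ γ : Γ, ∀ F ∈ 𝒬, ∃ F' ∈ 𝒬, ∃ c : ℝ, 0 < c ∧ ∀ v, F (l γ v) = c * F' v) :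
    ∃ s : X → V, Continuous s ∧ (∀ (γ : Γ) x, s (γ • x) = l γ (s x)) ∧
      ∀ x, ∃ F ∈ cone 𝒬, F (s x) < 0 := by
  obtain ⟨F₀, h0⟩ := h.ne
  refine map_of_sel D l (P := fun F v => F v < 0)
    (fun s f hs hfs => cone_sum1 h.conv s f hs hfs) (fun F hF c hc => cone_smul hF hc)
    (fun γ => cone_inv (hinv γ)) (F₀ := F₀) ⟨1, one_pos, F₀, h0, by rw [one_smul]⟩ (h.cont _ h0)
    ?_ ?_ (fun F v hv => hv) ?_ (fun γ F hF v hv => hv)
  · intro F hF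
    obtain ⟨G, hG, e⟩ := cone_neg hF
    obtain ⟨v, hv⟩ := h.neg G hG
    exact ⟨v, (e v).2 hv⟩
  · intro F hF
    obtain ⟨G, hG, e⟩ := cone_neg hF
    simp only [e]
    exact h.cvx G hG
  · intro G hG x v hv
    exact (hG.comp (continuous_id.prodMk continuous_const)).continuousAt.eventually
      (gt_mem_nhds hv)

/-- **The general criterion for one-sided families.** -/
theorem field_of_rep1 (D : AffMfd X Γ E dev hol) (l : Γ →* Module.End ℝ V) (ι : X → V →ₗ[ℝ] E)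
    (hι : Continuous fun p : X × V => ι p.1 p.2)
    (hιe : ∀ (γ : Γ) x v, ι (γ • x) (l γ v) = lin hol γ (ι x v))
    {𝒬 : Set (V → ℝ)} (h : Fam1 𝒬)
    (hinv : ∀ γ : Γ, ∀ F ∈ 𝒬, ∃ F' ∈ 𝒬, ∃ c : ℝ, 0 < c ∧ ∀ v, F (l γ v) = c * F' v)
    (hne : ∀ F ∈ 𝒬, ∀ v, F v < 0 → ∀ x, ι x v ≠ 0) :
    ∃ Z : X → E, Continuous Z ∧ (∀ (γ : Γ) x, Z (γ • x) = lin hol γ (Z x)) ∧
      ∀ x, Z x ≠ 0 := by
  obtain ⟨s, hs1, hs2, hs3⟩ := map_of_one D l h hinv
  refine ⟨fun x => ι x (s x), hι.comp (continuous_id.prodMk hs1), fun γ x => ?_, fun x => ?_⟩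
  · show ι (γ • x) (s (γ • x)) = _
    rw [hs2, hιe]
  · obtain ⟨F, hF, hneg⟩ := hs3 x
    obtain ⟨G, hG, e⟩ := cone_neg hF
    exact hne G hG _ ((e _).1 hneg) x

/-- **The general criterion.** -/
theorem field_of_rep (D : AffMfd X Γ E dev hol) (l : Γ →* Module.End ℝ V) (ι : X → V →ₗ[ℝ] E)
    (hι : Continuous fun p : X × V => ι p.1 p.2)
    (hιe : ∀ (γ : Γ) x v, ι (γ • x) (l γ v) = lin hol γ (ι x v))
    {𝒬 : Set (V → ℝ)} (h : Fam 𝒬)
    (hinv : ∀ γ : Γ, ∀ F ∈ 𝒬, ∃ F' ∈ 𝒬, ∃ c : ℝ, 0 < c ∧ ∀ v, F (l γ v) = c * F' v)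
    (hne : ∀ F ∈ 𝒬, ∀ v, F v < 0 → ∀ x, ι x v ≠ 0) :
    ∃ K₁ : Subgroup Γ, K₁.index ≤ 2 ∧ K₁.index ≠ 0 ∧
      ∃ Z : X → E, Continuous Z ∧ (∀ γ ∈ K₁, ∀ x, Z (γ • x) = lin hol γ (Z x)) ∧
        ∀ x, Z x ≠ 0 := by
  have hf := cone_fam h
  obtain ⟨F₀, h0, v₀, hv0⟩ := exists_start hf
  obtain ⟨K₁, h1, h2, h3⟩ := sign_sub (fun γ : Γ => (l γ : V →ₗ[ℝ] V)) (map_one l)
    (fun a b => map_mul l a b) hf (fun γ => cone_inv (hinv γ)) h0 hv0
  have D' := restr D K₁ ⟨h2⟩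
  obtain ⟨s, hs1, hs2, hs3⟩ := map_of_or D' (l.comp K₁.subtype) h
    (fun γ => cone_inv (hinv γ.1)) h0 hv0 (fun γ => h3 γ.1 γ.2)
  refine ⟨K₁, h1, h2, fun x => ι x (s x), hι.comp (continuous_id.prodMk hs1), fun γ hγ x => ?_,
    fun x => ?_⟩
  · have e := hs2 ⟨γ, hγ⟩ x
    have e' : s (γ • x) = l γ (s x) := e
    show ι (γ • x) (s (γ • x)) = _
    rw [e', hιe]
  · obtain ⟨_, ⟨c, hc, F, hF, rfl⟩, hneg⟩ := hs3 x
    refine hne F hF _ ?_ x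
    by_contra hn
    have := mul_nonneg hc.le (not_lt.1 hn)
    exact absurd hneg (not_lt.2 this)

end Pool.Agent.H34.CH
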