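import Pool.Agent.H34.CH.Dc
import Pool.Graph.R_seed8.R772.CC1

/-!
# Fields on closed affine manifolds from convex families of functions with double cones
-/

set_option autoImplicit false

open Set Filter Topology

namespace Pool.Agent.H34.CH

open Pool.Agent.W689.Ch Pool.Agent.TH845.Mk Pool.Agent.Y150.Ch
open Pool.Agent.W689.Mk (lin hol_add hol_sub hol_inv_apply hol_apply_inv lin_inv_apply lin_mul
  lin_smul hol_cont)

section
variable {X Γ E : Type} [TopologicalSpace X] [T2Space X] [Group Γ] [MulAction Γ X]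
  [NormedAddCommGroup E] [NormedSpace ℝ E] [FiniteDimensional ℝ E]
  {dev : X → E} {hol : Γ →* (E ≃ᵃ[ℝ] E)}

/-- the linear part as a linear map -/
def L (hol : Γ →* (E ≃ᵃ[ℝ] E)) (γ : Γ) : E →ₗ[ℝ] E := ((hol γ).linear : E →ₗ[ℝ] E)

omit [TopologicalSpace X] [T2Space X] [MulAction Γ X] [FiniteDimensional ℝ E] in
theorem L_apply (γ : Γ) (v : E) : L hol γ v = lin hol γ v := rfl

theorem field_of_or (D : AffMfd X Γ E dev hol) {𝒬 : Set (E → ℝ)} (h : Fam 𝒬)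
    (hinv : ∀ γ : Γ, ∀ F ∈ cone 𝒬, F ∘ L hol γ ∈ cone 𝒬) {F₀ : E → ℝ} (h0 : F₀ ∈ cone 𝒬) {v₀ : E}
    (hv0 : F₀ v₀ < 0) (hor : ∀ γ : Γ, Or (cone 𝒬) F₀ v₀ (L hol γ)) :
    ∃ Z : X → E, Continuous Z ∧ (∀ (γ : Γ) x, Z (γ • x) = lin hol γ (Z x)) ∧ ∀ x, Z x ≠ 0 := by
  classical
  have hf := cone_fam h
  have h0c : Continuous F₀ := hf.cont _ h0
  obtain ⟨ρ, hρ⟩ := exists_wt D
  let Q : X → E → ℝ := fun x v => ∑' γ : Γ, ρ (γ • x) * F₀ (L hol γ v)
  have hLc : ∀ γ : Γ, Continuous (L hol γ) := fun γ => LinearMap.continuous_of_finiteDimensional _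
  -- joint continuity
  have hQc : Continuous fun p : X × E => Q p.1 p.2 := by
    rw [continuous_iff_continuousAt]
    rintro ⟨x, v⟩
    obtain ⟨U, hU, F, hF⟩ := hρ.locfin x
    have h1 : ∀ᶠ p : X × E in 𝓝 (x, v),
        ∑ γ ∈ F, ρ (γ • p.1) * F₀ (L hol γ p.2) = Q p.1 p.2 := by
      have h2 : U ×ˢ (univ : Set E) ∈ 𝓝 (x, v) := prod_mem_nhds hU univ_mem
      filter_upwards [h2] with p hp
      exact (tsum_eq_sum fun γ hγ => by rw [hF γ hγ p.1 hp.1, zero_mul]).symm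
    have h2 : Continuous fun p : X × E => ∑ γ ∈ F, ρ (γ • p.1) * F₀ (L hol γ p.2) :=
      continuous_finsetSum _ fun γ _ =>
        (hρ.cont.comp ((D.cont γ).comp continuous_fst)).mul
          (h0c.comp ((hLc γ).comp continuous_snd))
    exact h2.continuousAt.congr h1
  -- members of the cone
  have hQm : ∀ x, Q x ∈ cone 𝒬 := by
    intro x
    obtain ⟨U, hU, F, hF⟩ := hρ.locfin x
    have hx := mem_of_mem_nhds hU
    have hs : ∑ γ ∈ F, ρ (γ • x) = 1 := by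
      rw [← hρ.sum x]
      exact (tsum_eq_sum fun γ hγ => hF γ hγ x hx).symm
    have e1 : Q x = ∑ γ ∈ F.filter (fun γ => ρ (γ • x) ≠ 0), ρ (γ • x) • (F₀ ∘ L hol γ) := by
      funext v
      have e2 : Q x v = ∑ γ ∈ F, ρ (γ • x) * F₀ (L hol γ v) :=
        tsum_eq_sum fun γ hγ => by rw [hF γ hγ x hx, zero_mul]
      rw [e2, Finset.sum_apply, Finset.sum_filter]
      refine Finset.sum_congr rfl fun γ _ => ?_
      by_cases c : ρ (γ • x) = 0
      · rw [if_neg (not_not.2 c), c, zero_mul]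
      · rw [if_pos c]
        rfl
    rw [e1]
    refine cone_sum h _ ?_ _ fun γ hγ => ?_
    · by_contra hemp
      rw [Finset.not_nonempty_iff_eq_empty, Finset.filter_eq_empty_iff] at hemp
      have : ∑ γ ∈ F, ρ (γ • x) = 0 := Finset.sum_eq_zero fun γ hγ => not_not.1 (hemp hγ)
      rw [this] at hs
      exact zero_ne_one hs
    · have h3 : ρ (γ • x) ≠ 0 := (Finset.mem_filter.1 hγ).2
      exact cone_smul (hinv γ _ h0) (lt_of_le_of_ne (hρ.nonneg _) h3.symm)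
  -- equivariance
  have hQi : ∀ (δ : Γ) x, Q (δ • x) ∘ L hol δ = Q x := by
    intro δ x
    funext v
    show ∑' γ : Γ, ρ (γ • δ • x) * F₀ (L hol γ (L hol δ v)) = ∑' γ : Γ, ρ (γ • x) * F₀ (L hol γ v)
    rw [← Equiv.tsum_eq (Equiv.mulRight δ) (fun γ : Γ => ρ (γ • x) * F₀ (L hol γ v))]
    refine tsum_congr fun γ => ?_
    show ρ (γ • δ • x) * F₀ (L hol γ (L hol δ v)) = ρ ((γ * δ) • x) * F₀ (L hol (γ * δ) v)
    rw [smul_smul]
    congr 2
    exact (lin_mul (hol := hol) γ δ v).symm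
  refine Pool.Agent.R772.CC.field_of_map D
    (Φ := fun x => {y | Pos F₀ v₀ (Q x) (y - dev x)}) ?_ ?_ ?_ ?_ ?_
  · intro x
    obtain ⟨v, hv⟩ := pos_exists hf h0 hv0 (hQm x)
    exact ⟨v + dev x, by rwa [mem_setOf_eq, add_sub_cancel_right]⟩
  · intro x y hy z hz s t hs ht hst
    have h1 := pos_convex hf h0 hv0 (hQm x) hy hz hs ht hst
    have e : s • y + t • z - dev x = s • (y - dev x) + t • (z - dev x) := by
      have : dev x = (s + t) • dev x := by rw [hst, one_smul]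
      nth_rewrite 1 [this]
      module
    show Pos F₀ v₀ (Q x) (s • y + t • z - dev x)
    rw [e]
    exact h1
  · intro γ x y hy
    have hy' : Pos F₀ v₀ (Q x) (y - dev x) := hy
    have e : hol γ y - dev (γ • x) = L hol γ (y - dev x) := by
      rw [D.equi, hol_sub]
      rfl
    show Pos F₀ v₀ (Q (γ • x)) (hol γ y - dev (γ • x))
    rw [e]
    have hneg := hy'.neg
    rw [← hQi γ x] at hy' hneg
    exact (hor γ _ (hQm _) _ hneg).1 hy'
  · intro x y hy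
    exact pos_open (G := Q) hQc (b := fun x' => y - dev x')
      (continuous_const.sub D.loc.continuous) hy
  · intro x hx
    have hx' : Pos F₀ v₀ (Q x) (dev x - dev x) := hx
    rw [sub_self] at hx'
    obtain ⟨w, -, h2⟩ := hx'
    obtain ⟨C, hC⟩ := hf.dc _ (hQm x)
    exact not_zero hC h2

end

/-! ## The orientation character -/

theorem sign_sub {G V : Type} [Group G] [NormedAddCommGroup V] [NormedSpace ℝ V]
    (l : G → V →ₗ[ℝ] V) (l1 : l 1 = LinearMap.id) (lm : ∀ a b, l (a * b) = l a ∘ₗ l b)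
    {𝒬 : Set (V → ℝ)} (h : Fam 𝒬) (hinv : ∀ a, ∀ F ∈ 𝒬, F ∘ l a ∈ 𝒬) {F₀ : V → ℝ} (h0 : F₀ ∈ 𝒬)
    {v₀ : V} (hv0 : F₀ v₀ < 0) :
    ∃ K₁ : Subgroup G, K₁.index ≤ 2 ∧ K₁.index ≠ 0 ∧ ∀ a ∈ K₁, Or 𝒬 F₀ v₀ (l a) := by
  classical
  have hone : Or 𝒬 F₀ v₀ (l 1) := by
    rw [l1]
    intro F _ v _
    exact Iff.rfl
  have hmul : ∀ a b, Or 𝒬 F₀ v₀ (l (a * b)) ↔ (Or 𝒬 F₀ v₀ (l a) ↔ Or 𝒬 F₀ v₀ (l b)) := by
    intro a b
    rw [lm]
    exact or_comp h h0 hv0 (hinv a) (hinv b)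
  let s : G →* ℤˣ :=
    { toFun := fun a => if Or 𝒬 F₀ v₀ (l a) then 1 else -1
      map_one' := if_pos hone
      map_mul' := by
        intro a b
        by_cases ha : Or 𝒬 F₀ v₀ (l a) <;> by_cases hb : Or 𝒬 F₀ v₀ (l b) <;>
          simp only [hmul a b, ha, hb, iff_true, if_true, if_false, iff_false, not_true,
            mul_one, mul_neg, neg_neg] }
  refine ⟨s.ker, ?_, ?_, fun a ha => ?_⟩
  · rw [Subgroup.index_ker]
    calc Nat.card s.range ≤ Nat.card ℤˣ :=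
          Nat.card_le_card_of_injective _ Subtype.val_injective
      _ = 2 := by rw [Nat.card_eq_fintype_card]; exact Fintype.card_units_int
  · exact (Subgroup.finiteIndex_ker s).index_ne_zero
  · by_contra hn
    have h1 : s a = 1 := ha
    have h2 : s a = -1 := if_neg hn
    rw [h1] at h2
    exact absurd h2 (by decide)

/-- preserved up to positive factors, a member of the cone -/
theorem cone_inv {V : Type} [NormedAddCommGroup V] [NormedSpace ℝ V] {𝒬 : Set (V → ℝ)}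
    {A : V → V} (h : ∀ F ∈ 𝒬, ∃ F' ∈ 𝒬, ∃ c : ℝ, 0 < c ∧ ∀ v, F (A v) = c * F' v) :
    ∀ F ∈ cone 𝒬, F ∘ A ∈ cone 𝒬 := by
  rintro _ ⟨d, hd, G, hG, rfl⟩
  obtain ⟨F', hF', c, hc, h1⟩ := h G hG
  refine ⟨d * c, mul_pos hd hc, F', hF', ?_⟩
  funext v
  show d * G (A v) = d * c * F' v
  rw [h1, mul_assoc]

theorem exists_start {V : Type} [NormedAddCommGroup V] [NormedSpace ℝ V] {𝒬 : Set (V → ℝ)}
    (h : Fam 𝒬) : ∃ F₀ ∈ 𝒬, ∃ v₀, F₀ v₀ < 0 := by
  obtain ⟨F, hF⟩ := h.ne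
  obtain ⟨C, hC⟩ := h.dc F hF
  obtain ⟨v, hv⟩ := hC.ne
  exact ⟨F, hF, v, (hC.iff v).2 (Or.inl hv)⟩

section
variable {X Γ E : Type} [TopologicalSpace X] [T2Space X] [Group Γ] [MulAction Γ X]
  [NormedAddCommGroup E] [NormedSpace ℝ E] [FiniteDimensional ℝ E]
  {dev : X → E} {hol : Γ →* (E ≃ᵃ[ℝ] E)}

omit [T2Space X] [FiniteDimensional ℝ E] [TopologicalSpace X] [MulAction Γ X] in
theorem L_one : L hol 1 = LinearMap.id := by
  refine LinearMap.ext fun v => ?_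
  show (hol 1).linear v = v
  rw [map_one]
  rfl

theorem L_mul (γ δ : Γ) : L hol (γ * δ) = L hol γ ∘ₗ L hol δ :=
  LinearMap.ext fun v => lin_mul (hol := hol) γ δ v

/-- A convex family which is preserved by the linear holonomy of a subgroup `K` gives a field over
a covering of degree at most two. -/
theorem field_of_family (D : AffMfd X Γ E dev hol) (K : Subgroup Γ) (hK : K.FiniteIndex)
    {𝒬 : Set (E → ℝ)} (h : Fam 𝒬) (hinv : ∀ γ ∈ K, ∀ F ∈ 𝒬, ∃ F' ∈ 𝒬, ∃ c : ℝ, 0 < c ∧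
      ∀ v, F (lin hol γ v) = c * F' v) :
    ∃ K' ≤ K, K'.FiniteIndex ∧ K'.index ≤ 2 * K.index ∧
      ∃ Z : X → E, Continuous Z ∧ (∀ γ ∈ K', ∀ x, Z (γ • x) = lin hol γ (Z x)) ∧
        ∀ x, Z x ≠ 0 := by
  have hf := cone_fam h
  obtain ⟨F₀, h0, v₀, hv0⟩ := exists_start hf
  obtain ⟨K₁, h1, h2, h3⟩ := sign_sub (fun γ : K => L hol γ.1) L_one
    (fun a b => L_mul (hol := hol) a.1 b.1) hf (fun γ => cone_inv (hinv γ.1 γ.2)) h0 hv0
  have hle : K₁.map K.subtype ≤ K := Subgroup.map_subtype_le _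
  have hfin : (K₁.map K.subtype).FiniteIndex := by
    refine ⟨?_⟩
    rw [Subgroup.index_map_subtype]
    exact mul_ne_zero h2 hK.index_ne_zero
  refine ⟨K₁.map K.subtype, hle, hfin, ?_, ?_⟩
  · rw [Subgroup.index_map_subtype]
    exact Nat.mul_le_mul_right _ h1
  · have D' := restr D _ hfin
    obtain ⟨Z, hZ1, hZ2, hZ3⟩ := field_of_or D' h
      (fun γ => cone_inv (hinv γ.1 (hle γ.2))) h0 hv0 (fun γ => by
        obtain ⟨δ, hδ, hδγ⟩ := Subgroup.mem_map.1 γ.2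
        have h4 := h3 δ hδ
        have h5 : (δ : Γ) = γ.1 := hδγ
        show Or (cone 𝒬) F₀ v₀ (L hol γ.1)
        rw [← h5]
        exact h4)
    exact ⟨Z, hZ1, fun γ hγ x => hZ2 ⟨γ, hγ⟩ x, hZ3⟩

end

end Pool.Agent.H34.CH
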